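import Pool.Agent.H27.G.R_seed8.H932R4.MO.Final
import Pool.Agent.H27.G.R_pool_sql_team_seeded_843ab51a.H243.BP.Scales

set_option autoImplicit false

/-!
# MP_31d0eb_nt: the primes around almost every prime of a short interval, at all scales

`count P x H` is the number of elements of `P` in `(x, x + H]`; for the set of all primes it is
`π(x, H)`.

Let `θ > 0` be arbitrary (small), `X` large and `X ^ θ ≤ Y ≤ X`. Unconditionally:

1. For all but at most `C lam^(-1/2) Y / log X` of the primes `p` in `(X, X + Y]`,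
   `H / (lam log X) ≤ π(x, H) ≤ lam (1 + H / log X)` for ALL intervals `(x, x + H]` with
   `x < p ≤ x + H` and `H ≤ Y` at once, from `H = log X` (and below) to `H = Y`.
   The lower bound also holds for the elements of any set `P` of primes, for `p` in `P`.
2. For every `η > 0` there is `lam`, for every `δ > 0` there is `K` such that for all but at most
   `η Y / log X` of these primes moreover at all but at most `K` of the dyadic scales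
   `D = 2 ^ j`, `log X ≤ D ≤ Y`, the primes have a constant density `μ / log X`, `1 / lam ≤ μ ≤ lam`,
   around `p`: `|π(x, H) - μ H / log X| ≤ δ D / log X` for all `(x, x + H]` in `(p - D, p + D]`.
   Again `P` can be any set of primes.
3. There is `θ < 1` for which every `(X, X + Y]` contains `≫ Y / log X` primes. For every such `θ`
   the exceptions in 1. and 2. are at most a proportion `η` of the primes in `(X, X + Y]`.
-/

namespace Pool.Agent.Results.MP_31d0eb_nt.BalancedPrimes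

open Finset Filter
open Pool.Agent.W123.RP Pool.Agent.H243.BP

/-- the set of all primes -/
def primes : Set ℕ := {q | q.Prime}

/-- number of elements of `P` in `(x, x + H]` -/
noncomputable def count (P : Set ℕ) (x H : ℝ) : ℕ :=
  {q : ℕ | q ∈ P ∧ x < q ∧ (q : ℝ) ≤ x + H}.ncard

/-- every interval `(x, x + H]` of length `H ≤ Y` in which `p` lies contains at least
`H / (lam log X)` elements of `P` and at most `lam (1 + H / log X)` primes -/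
def RightOrder (P : Set ℕ) (lam : ℝ) (X Y p : ℕ) : Prop :=
  ∀ x H : ℝ, x < p → (p : ℝ) ≤ x + H → H ≤ Y →
    H / (lam * Real.log X) ≤ count P x H ∧ (count primes x H : ℝ) ≤ lam * (1 + H / Real.log X)

/-- up to `δ`, the set `P` has a constant density `μ / log X`, `1 / lam ≤ μ ≤ lam`, on
`(p - D, p + D]` -/
def ConstantDensity (P : Set ℕ) (lam δ : ℝ) (X p D : ℕ) : Prop :=
  ∃ μ : ℝ, 1 / lam ≤ μ ∧ μ ≤ lam ∧ ∀ x H : ℝ, (p : ℝ) - D ≤ x → 0 ≤ H → x + H ≤ p + D →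
    |(count P x H : ℝ) - μ * H / Real.log X| ≤ δ * D / Real.log X

/-- `RightOrder`, and `ConstantDensity` at all but at most `K` of the scales `D = 2 ^ j` with
`log X ≤ D ≤ Y` -/
def Regular (P : Set ℕ) (lam δ : ℝ) (K X Y p : ℕ) : Prop :=
  RightOrder P lam X Y p ∧
  {j : ℕ | Real.log X ≤ (2 : ℝ) ^ j ∧ 2 ^ j ≤ Y ∧ ¬ ConstantDensity P lam δ X p (2 ^ j)}.ncard ≤ K

/-- `(X, X + Y]` contains at least `c Y / log X` primes whenever `X ^ θ ≤ Y ≤ X` and `X` is large -/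
def ShortIntervals (θ : ℝ) : Prop := ∃ c : ℝ, 0 < c ∧ ∀ᶠ X : ℕ in atTop, ∀ Y : ℕ,
  (X : ℝ) ^ θ ≤ Y → Y ≤ X → c * Y / Real.log X ≤ ({p : ℕ | p.Prime ∧ X < p ∧ p ≤ X + Y}.ncard : ℝ)

/-! ### real and integral end points -/

open Classical in
lemma count_eq (P : Set ℕ) (x H : ℝ) (hx : 0 ≤ x) (hH : 0 ≤ H) :
    count P x H = co (fun n => n ∈ P) ⌊x⌋₊ ⌊x + H⌋₊ := by
  unfold count co
  rw [← Set.ncard_coe_finset]
  congr 1
  ext q
  simp only [Set.mem_ofPred_eq, coe_filter, mem_Ioc]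
  constructor
  · rintro ⟨h1, h2, h3⟩
    exact ⟨⟨(Nat.floor_lt hx).2 h2, (Nat.le_floor_iff (by linarith)).2 h3⟩, h1⟩
  · rintro ⟨⟨h1, h2⟩, h3⟩
    exact ⟨h3, (Nat.floor_lt hx).1 h1, (Nat.le_floor_iff (by linarith)).1 h2⟩

open Classical in
lemma rightOrder_of (P : Set ℕ) (lam : ℝ) (hlam : 0 < lam) (X Y p : ℕ) (hL : 1 ≤ Real.log X)
    (hYX : Y ≤ X) (hp : X < p)
    (h : Bal (fun n => n ∈ P) Nat.Prime (lam / 2) (Real.log X) Y p) : RightOrder P lam X Y p := by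
  intro x H h1 h2 h3
  set L := Real.log X with hLdef
  have hL0 : 0 < L := by linarith
  have hYp : (Y : ℝ) < p := by exact_mod_cast (by omega : Y < p)
  have hx0 : 0 ≤ x := by linarith
  have hH0 : 0 < H := by linarith
  have hpx : ⌊x⌋₊ < p := (Nat.floor_lt hx0).2 h1
  have hpb : p ≤ ⌊x + H⌋₊ := (Nat.le_floor_iff (by linarith)).2 h2
  have f1 : (⌊x⌋₊ : ℝ) ≤ x := Nat.floor_le hx0
  have f2 : x < (⌊x⌋₊ : ℝ) + 1 := Nat.lt_floor_add_one x
  have f3 : (⌊x + H⌋₊ : ℝ) ≤ x + H := Nat.floor_le (by linarith)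
  have f4 : x + H < (⌊x + H⌋₊ : ℝ) + 1 := Nat.lt_floor_add_one _
  have hlen : ⌊x + H⌋₊ ≤ ⌊x⌋₊ + Y := by
    have : (⌊x + H⌋₊ : ℝ) < (⌊x⌋₊ : ℝ) + Y + 1 := by linarith
    have h4 : ⌊x + H⌋₊ < ⌊x⌋₊ + Y + 1 := by exact_mod_cast this
    omega
  obtain ⟨b1, b2⟩ := h ⌊x⌋₊ ⌊x + H⌋₊ hpx hpb hlen
  have hge : (1 : ℝ) ≤ (⌊x + H⌋₊ : ℝ) - ⌊x⌋₊ := by
    have : ⌊x⌋₊ + 1 ≤ ⌊x + H⌋₊ := by omega
    have h4 : ((⌊x⌋₊ + 1 : ℕ) : ℝ) ≤ ⌊x + H⌋₊ := by exact_mod_cast this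
    push_cast at h4
    linarith
  rw [count_eq P x H hx0 hH0.le, count_eq primes x H hx0 hH0.le]
  refine ⟨le_trans ?_ b1, b2.trans ?_⟩
  · rw [div_le_div_iff₀ (by positivity) (by positivity)]
    have h5 : H ≤ 2 * ((⌊x + H⌋₊ : ℝ) - ⌊x⌋₊) := by linarith
    calc H * (lam / 2 * L) ≤ 2 * ((⌊x + H⌋₊ : ℝ) - ⌊x⌋₊) * (lam / 2 * L) := by gcongr
      _ = _ := by ring
  · have h5 : ((⌊x + H⌋₊ : ℝ) - ⌊x⌋₊) / L ≤ H / L + 1 := by
      rw [div_add_one hL0.ne']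
      apply div_le_div_of_nonneg_right _ hL0.le
      linarith
    have h6 : 0 ≤ H / L := by positivity
    calc lam / 2 * (1 + ((⌊x + H⌋₊ : ℝ) - ⌊x⌋₊) / L) ≤ lam / 2 * (1 + (H / L + 1)) := by gcongr
      _ ≤ lam * (1 + H / L) := by nlinarith

open Classical in
lemma constantDensity_of (P : Set ℕ) (lam lam' δ : ℝ) (hlam : 0 < lam) (hll : lam ≤ lam')
    (X Y p D : ℕ) (hYX : Y ≤ X) (hp : X < p) (hDY : D ≤ Y) (hL : 1 ≤ Real.log X)
    (hD : Real.log X ≤ D) (hDl : 2 * lam ≤ δ * Real.log X)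
    (h : ConstDens (fun n => n ∈ P) lam (δ / 2) (Real.log X) p D) :
    ConstantDensity P lam' δ X p D := by
  obtain ⟨μ, m1, m2, m3⟩ := h
  set L := Real.log X with hLdef
  have hL0 : 0 < L := by linarith
  have hμ0 : 0 ≤ μ := le_trans (by positivity) m1
  refine ⟨μ, le_trans (one_div_le_one_div_of_le hlam hll) m1, m2.trans hll, ?_⟩
  intro x H h1 h2 h3
  have hDp : (D : ℝ) < p := by exact_mod_cast (by omega : D < p)
  have hx0 : 0 ≤ x := by linarith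
  have f1 : (⌊x⌋₊ : ℝ) ≤ x := Nat.floor_le hx0
  have f2 : x < (⌊x⌋₊ : ℝ) + 1 := Nat.lt_floor_add_one x
  have f3 : (⌊x + H⌋₊ : ℝ) ≤ x + H := Nat.floor_le (by linarith)
  have f4 : x + H < (⌊x + H⌋₊ : ℝ) + 1 := Nat.lt_floor_add_one _
  have u1 : p ≤ ⌊x⌋₊ + D := by
    have : p - D ≤ ⌊x⌋₊ := by
      apply Nat.le_floor
      rw [Nat.cast_sub (by omega)]
      exact h1
    omega
  have u2 : ⌊x⌋₊ ≤ ⌊x + H⌋₊ := Nat.floor_le_floor (by linarith)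
  have u3 : ⌊x + H⌋₊ ≤ p + D := by
    have : (⌊x + H⌋₊ : ℝ) ≤ ((p + D : ℕ) : ℝ) := by push_cast; linarith
    exact_mod_cast this
  have h4 := m3 ⌊x⌋₊ ⌊x + H⌋₊ u1 u2 u3
  rw [count_eq P x H hx0 h2]
  have h5 : |μ * ((⌊x + H⌋₊ : ℝ) - ⌊x⌋₊) / L - μ * H / L| ≤ lam / L := by
    have e : μ * ((⌊x + H⌋₊ : ℝ) - ⌊x⌋₊) / L - μ * H / L =
        μ / L * (((⌊x + H⌋₊ : ℝ) - ⌊x⌋₊) - H) := by ring
    rw [e, abs_mul, abs_of_nonneg (by positivity : 0 ≤ μ / L)]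
    have h6 : |((⌊x + H⌋₊ : ℝ) - ⌊x⌋₊) - H| ≤ 1 := by
      rw [abs_le]
      constructor <;> linarith
    calc μ / L * |((⌊x + H⌋₊ : ℝ) - ⌊x⌋₊) - H| ≤ lam / L * 1 := by gcongr
      _ = lam / L := mul_one _
  have h7 : lam / L ≤ δ / 2 * D / L := by
    apply div_le_div_of_nonneg_right _ hL0.le
    have hδ0 : 0 ≤ δ := by
      by_contra hneg
      push Not at hneg
      nlinarith
    have : δ * L ≤ δ * D := by gcongr
    linarith
  calc |(co (fun n => n ∈ P) ⌊x⌋₊ ⌊x + H⌋₊ : ℝ) - μ * H / L|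
      = |((co (fun n => n ∈ P) ⌊x⌋₊ ⌊x + H⌋₊ : ℝ) - μ * ((⌊x + H⌋₊ : ℝ) - ⌊x⌋₊) / L) +
          (μ * ((⌊x + H⌋₊ : ℝ) - ⌊x⌋₊) / L - μ * H / L)| := by ring_nf
    _ ≤ _ := abs_add_le _ _
    _ ≤ δ / 2 * D / L + δ / 2 * D / L := add_le_add h4 (h5.trans h7)
    _ = δ * D / L := by ring

/-! ### the two main parts -/

theorem part1 (θ : ℝ) (h0 : 0 < θ) : ∃ C : ℝ, 0 < C ∧ ∀ᶠ X : ℕ in atTop, ∀ Y : ℕ,
    (X : ℝ) ^ θ ≤ Y → Y ≤ X → ∀ P ⊆ primes, ∀ lam : ℝ, 1 ≤ lam →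
      ({p : ℕ | p ∈ P ∧ X < p ∧ p ≤ X + Y ∧ ¬ RightOrder P lam X Y p}.ncard : ℝ) ≤
        C / √lam * (Y / Real.log X) := by
  classical
  obtain ⟨C, hC, h⟩ := balanced_local θ h0
  obtain ⟨C1, C2, hC1, hC2, hin⟩ := input θ h0
  refine ⟨2 * C + 2 * C1, by positivity, ?_⟩
  filter_upwards [h, hin 0] with X hX hinX
  intro Y hY hYX P hP lam hlam
  obtain ⟨hX3, hL2, hLY, -, hup, -⟩ := hinX Y hY hYX
  have hL0 : 0 < Real.log X := by linarith
  have hYL : 0 ≤ (Y : ℝ) / Real.log X := by positivity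
  have hs0 : 0 < √lam := Real.sqrt_pos.2 (by linarith)
  rcases le_total 2 lam with h2 | h2
  · have h1 := hX Y hY hYX (fun n => n ∈ P) (fun n hn => hP hn) (lam / 2) (by linarith)
    have h3 : ({p : ℕ | p ∈ P ∧ X < p ∧ p ≤ X + Y ∧ ¬ RightOrder P lam X Y p}.ncard : ℝ) ≤
        (((Finset.Ioc X (X + Y)).filter (fun p => p ∈ P ∧
        ¬ Bal (fun n => n ∈ P) Nat.Prime (lam / 2) (Real.log X) Y p)).card : ℝ) := by
      rw [← Set.ncard_coe_finset]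
      apply Nat.cast_le.2
      apply Set.ncard_le_ncard _ (Finset.finite_toSet _)
      rintro p ⟨p1, p2, p3, p4⟩
      rw [mem_coe, mem_filter, mem_Ioc]
      exact ⟨⟨p2, p3⟩, p1, fun hb => p4 (rightOrder_of P lam (by linarith) X Y p (by linarith) hYX p2 hb)⟩
    refine h3.trans (h1.trans ?_)
    have h4 : √(lam / 2) = √lam / √2 := Real.sqrt_div' _ (by norm_num)
    rw [h4]
    have h5 : C / (√lam / √2) = √2 * C / √lam := by
      field_simp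
    rw [h5]
    have h6 : √2 ≤ 2 := by
      rw [Real.sqrt_le_left (by norm_num)]
      norm_num
    have h7 : √2 * C / √lam ≤ (2 * C + 2 * C1) / √lam := by
      apply div_le_div_of_nonneg_right _ hs0.le
      nlinarith
    exact mul_le_mul_of_nonneg_right h7 hYL
  · -- lam ≤ 2: trivial bound by the number of primes
    have h3 : ({p : ℕ | p ∈ P ∧ X < p ∧ p ≤ X + Y ∧ ¬ RightOrder P lam X Y p}.ncard : ℝ) ≤
        (co (sh Nat.Prime (X - Y)) 0 (4 * Y) : ℝ) := by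
      have g1 : {p : ℕ | p ∈ P ∧ X < p ∧ p ≤ X + Y ∧ ¬ RightOrder P lam X Y p}.ncard ≤
          ((Ioc X (X + Y)).filter (fun p => p ∈ P)).card := by
        rw [← Set.ncard_coe_finset]
        apply Set.ncard_le_ncard _ (Finset.finite_toSet _)
        rintro p ⟨p1, p2, p3, p4⟩
        rw [mem_coe, mem_filter, mem_Ioc]
        exact ⟨⟨p2, p3⟩, p1⟩
      have g2 := card_shift X Y hYX (fun p => p ∈ P) (fun n => sh Nat.Prime (X - Y) n)
        (fun n _ _ hn => hP hn)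
      have g3 : ((Ioc Y (2 * Y)).filter (fun n => sh Nat.Prime (X - Y) n)).card ≤
          co (sh Nat.Prime (X - Y)) 0 (4 * Y) := by
        unfold co
        apply card_le_card
        intro n hn
        rw [mem_filter, mem_Ioc] at hn ⊢
        exact ⟨⟨by omega, by omega⟩, hn.2⟩
      exact_mod_cast g1.trans (g2.trans g3)
    refine h3.trans (hup.trans ?_)
    have h4 : √lam ≤ 2 := by
      rw [Real.sqrt_le_left (by norm_num)]
      linarith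
    have h5 : C1 ≤ (2 * C + 2 * C1) / √lam := by
      rw [le_div_iff₀ hs0]
      nlinarith
    calc C1 * Y / Real.log X = C1 * (Y / Real.log X) := by ring
      _ ≤ _ := mul_le_mul_of_nonneg_right h5 hYL

theorem part2 (θ : ℝ) (h0 : 0 < θ) (η : ℝ) (hη : 0 < η) : ∃ lam : ℝ, 1 ≤ lam ∧
    ∀ δ : ℝ, 0 < δ → ∃ K : ℕ, ∀ᶠ X : ℕ in atTop, ∀ Y : ℕ, (X : ℝ) ^ θ ≤ Y → Y ≤ X →
      ∀ P ⊆ primes,
      ({p : ℕ | p ∈ P ∧ X < p ∧ p ≤ X + Y ∧ ¬ Regular P lam δ K X Y p}.ncard : ℝ) ≤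
        η * (Y / Real.log X) := by
  classical
  obtain ⟨lam, hlam, h⟩ := regular_local θ h0 η hη
  obtain ⟨C1, C2, hC1, hC2, hin⟩ := input θ h0
  refine ⟨2 * lam, by linarith, fun δ hδ => ?_⟩
  obtain ⟨K, hK⟩ := h (δ / 2) (by positivity)
  refine ⟨K, ?_⟩
  have hlogX : Tendsto (fun X : ℕ => Real.log (X : ℝ)) atTop atTop :=
    Real.tendsto_log_atTop.comp tendsto_natCast_atTop_atTop
  filter_upwards [hK, hin 0, hlogX.eventually_ge_atTop (2 * lam / δ)] with X hX hinX hbig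
  intro Y hY hYX P hP
  obtain ⟨hX3, hL2, hLY, -, -, -⟩ := hinX Y hY hYX
  have hL0 : 0 < Real.log X := by linarith
  have hbig2 : 2 * lam ≤ δ * Real.log X := by
    rw [div_le_iff₀ hδ] at hbig
    linarith
  have h1 := hX Y hY hYX (fun n => n ∈ P) (fun n hn => hP hn)
  refine le_trans ?_ h1
  rw [← Set.ncard_coe_finset]
  apply Nat.cast_le.2
  apply Set.ncard_le_ncard _ (Finset.finite_toSet _)
  rintro p ⟨p1, p2, p3, p4⟩
  rw [mem_coe, mem_filter, mem_Ioc]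
  refine ⟨⟨p2, p3⟩, p1, fun hb => p4 ?_⟩
  obtain ⟨hb1, hb2⟩ := hb
  refine ⟨rightOrder_of P (2 * lam) (by linarith) X Y p (by linarith) hYX p2 (by
    rwa [show 2 * lam / 2 = lam by ring]), le_trans ?_ hb2⟩
  rw [← Set.ncard_coe_finset]
  apply Set.ncard_le_ncard _ (Finset.finite_toSet _)
  rintro j ⟨j1, j2, j3⟩
  rw [mem_coe, mem_filter, mem_range]
  have hY0 : Y ≠ 0 := by
    have := Nat.one_le_two_pow (n := j)
    omega
  refine ⟨Nat.lt_succ_of_le (Nat.le_log_of_pow_le (by norm_num) j2), j1, fun hc => j3 ?_⟩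
  exact constantDensity_of P lam (2 * lam) δ (by linarith) (by linarith) X Y p (2 ^ j) hYX p2 j2
    (by linarith) (by push_cast; exact j1) hbig2 hc

theorem exists_short : ∃ θ : ℝ, 0 < θ ∧ θ < 1 ∧ ShortIntervals θ := by
  classical
  obtain ⟨θ, h0, h1, c, hc, X₀, -, h⟩ := Pool.Agent.H932R4.MO.exists_short
  refine ⟨θ, h0, h1, c, hc, ?_⟩
  filter_upwards [eventually_ge_atTop X₀] with X hX
  intro Y hY hYX
  refine (h X Y hX hY hYX).trans (le_of_eq ?_)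
  rw [← Set.ncard_coe_finset]
  congr 2
  ext p
  simp only [coe_filter, mem_Ioc, Set.mem_ofPred_eq]
  tauto

theorem part3 (θ : ℝ) (h0 : 0 < θ) (hS : ShortIntervals θ) (η : ℝ) (hη : 0 < η) :
    ∃ lam : ℝ, 1 ≤ lam ∧ ∀ δ : ℝ, 0 < δ → ∃ K : ℕ, ∀ᶠ X : ℕ in atTop, ∀ Y : ℕ,
      (X : ℝ) ^ θ ≤ Y → Y ≤ X →
      ({p : ℕ | p.Prime ∧ X < p ∧ p ≤ X + Y ∧ ¬ Regular primes lam δ K X Y p}.ncard : ℝ) ≤
        η * ({p : ℕ | p.Prime ∧ X < p ∧ p ≤ X + Y}.ncard : ℝ) := by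
  obtain ⟨c, hc, hS⟩ := hS
  obtain ⟨lam, hlam, h⟩ := part2 θ h0 (η * c) (by positivity)
  refine ⟨lam, hlam, fun δ hδ => ?_⟩
  obtain ⟨K, hK⟩ := h δ hδ
  refine ⟨K, ?_⟩
  filter_upwards [hS, hK] with X hX1 hX2
  intro Y hY hYX
  refine (hX2 Y hY hYX primes subset_rfl).trans ?_
  calc η * c * (Y / Real.log X) = η * (c * Y / Real.log X) := by ring
    _ ≤ _ := by
      apply mul_le_mul_of_nonneg_left (hX1 Y hY hYX) hη.le

/-- **The primes around almost every prime.** (1) and (2) bound the number of exceptions in every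
interval `(X, X + Y]`, `X ^ θ ≤ Y ≤ X`, `θ > 0` arbitrary; (3) and (4): for some `θ < 1`, and for all
`θ` for which these intervals contain `≫ Y / log X` primes, the exceptions are at most a proportion
`η` of the primes of the interval. -/
theorem result :
    (∀ θ : ℝ, 0 < θ → ∃ C : ℝ, 0 < C ∧ ∀ᶠ X : ℕ in atTop, ∀ Y : ℕ, (X : ℝ) ^ θ ≤ Y → Y ≤ X →
      ∀ P ⊆ primes, ∀ lam : ℝ, 1 ≤ lam →
      ({p : ℕ | p ∈ P ∧ X < p ∧ p ≤ X + Y ∧ ¬ RightOrder P lam X Y p}.ncard : ℝ) ≤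
        C / √lam * (Y / Real.log X)) ∧
    (∀ θ : ℝ, 0 < θ → ∀ η : ℝ, 0 < η → ∃ lam : ℝ, 1 ≤ lam ∧ ∀ δ : ℝ, 0 < δ → ∃ K : ℕ,
      ∀ᶠ X : ℕ in atTop, ∀ Y : ℕ, (X : ℝ) ^ θ ≤ Y → Y ≤ X → ∀ P ⊆ primes,
      ({p : ℕ | p ∈ P ∧ X < p ∧ p ≤ X + Y ∧ ¬ Regular P lam δ K X Y p}.ncard : ℝ) ≤
        η * (Y / Real.log X)) ∧
    (∃ θ : ℝ, 0 < θ ∧ θ < 1 ∧ ShortIntervals θ) ∧
    (∀ θ : ℝ, 0 < θ → ShortIntervals θ → ∀ η : ℝ, 0 < η → ∃ lam : ℝ, 1 ≤ lam ∧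
      ∀ δ : ℝ, 0 < δ → ∃ K : ℕ, ∀ᶠ X : ℕ in atTop, ∀ Y : ℕ, (X : ℝ) ^ θ ≤ Y → Y ≤ X →
      ({p : ℕ | p.Prime ∧ X < p ∧ p ≤ X + Y ∧ ¬ Regular primes lam δ K X Y p}.ncard : ℝ) ≤
        η * ({p : ℕ | p.Prime ∧ X < p ∧ p ≤ X + Y}.ncard : ℝ)) :=
  ⟨part1, part2, exists_short, part3⟩

end Pool.Agent.Results.MP_31d0eb_nt.BalancedPrimes
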